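import Pool.Agent.X16.BC.C

/-!
# Lehmer's problem for short combinations of a polynomial and its reversal, and of coprime tuples

For all `N` and `B` there is `μ > 1` such that `M(A P + C P^*) = 1` or `M(A P + C P^*) ≥ μ` for all
integer polynomials `P`, `A`, `C` with `M(P) ≤ B`, `A` and `C` of total length at most `N`, such that
all common divisors of `P` and its reversal `P^*` have Mahler measure `1` (and `A P + C P^* ≠ 0`).
The degree and the length of `P` are not bounded, and `A P + C P^*` may be reciprocal; for instance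
`z ^ n P ± P^*` (Salem's construction).

More generally: for all `N` and `K` there is `μ > 1` such that every nonzero combination
`∑ A_i P_i`, with coefficients `A_i` of total length at most `N`, of integer polynomials
`P_1, …, P_r` (any `r`), all of whose common divisors have measure `1`, with
`∫ (1/2) log ∑ |P_i|² ≤ K` on the unit circle, has Mahler measure `1` or at least `μ`.
-/

set_option autoImplicit false

namespace Pool.Agent.Results.MP_dc0c68_nt.CoprimeCombinations

open Polynomial

noncomputable section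

/-- The Mahler measure of an integer polynomial in one variable. -/
def mahler (f : ℤ[X]) : ℝ := (f.map (Int.castRingHom ℂ)).mahlerMeasure

/-- The length (sum of the absolute values of the coefficients). -/
def length (f : ℤ[X]) : ℤ := ∑ i ∈ f.support, |f.coeff i|

/-- The value of `f` at the point `exp (2 π i t)` of the unit circle. -/
def value (f : ℤ[X]) (t : ℝ) : ℂ :=
  (f.map (Int.castRingHom ℂ)).eval (Complex.exp (2 * (Real.pi : ℂ) * Complex.I * (t : ℂ)))

/-- The height `∫ (1/2) log ∑ |P_i|²` of a tuple of polynomials over the unit circle. -/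
def tupleHeight {r : ℕ} (P : Fin r → ℤ[X]) : ℝ :=
  ∫ t in (0 : ℝ)..1, 1 / 2 * Real.log (∑ i, ‖value (P i) t‖ ^ 2)

theorem result :
    (∀ N B : ℝ, ∃ μ : ℝ, 1 < μ ∧ ∀ P A C : ℤ[X],
      (∀ D : ℤ[X], D ∣ P → D ∣ P.reverse → mahler D = 1) → mahler P ≤ B →
      ((length A + length C : ℤ) : ℝ) ≤ N → A * P + C * P.reverse ≠ 0 →
      mahler (A * P + C * P.reverse) = 1 ∨ μ ≤ mahler (A * P + C * P.reverse)) ∧
    (∀ N K : ℝ, ∃ μ : ℝ, 1 < μ ∧ ∀ (r : ℕ) (P A : Fin r → ℤ[X]),
      (∀ D : ℤ[X], (∀ i, D ∣ P i) → mahler D = 1) → tupleHeight P ≤ K →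
      ((∑ i, length (A i) : ℤ) : ℝ) ≤ N → ∑ i, A i * P i ≠ 0 →
      mahler (∑ i, A i * P i) = 1 ∨ μ ≤ mahler (∑ i, A i * P i)) :=
  ⟨Pool.Agent.X16.BC.reverse_gap, Pool.Agent.X16.BC.one_gap⟩

end

end Pool.Agent.Results.MP_dc0c68_nt.CoprimeCombinations
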