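import Mathlib
import Pool.Agent.X184.Leh.Q2

/-!
# An explicit lower bound for the Mahler measure in terms of the discriminant

Let `f` be an irreducible integer polynomial of degree `n` with Mahler measure `M > 1`, and put
`δ = |disc f| ^ (1/n) / n`.

(1) If `M < 2` and `p` is a prime number such that distinct zeros of `f` have distinct `p`-th
powers, then `log M ≥ log (p δ / 2) / (2 (p + 1))`.

(2) If no quotient of two distinct zeros of `f` is a root of unity, then
`M ≥ min (2, exp (δ / 46))`.

(3) If `|disc f| ≥ n ^ n` and distinct zeros of `f` have distinct seventh powers, then `M ≥ 1.08`.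

The bounds do not depend on the degree: `M ≥ 1 + c` as soon as `|disc f| ≥ (n / C) ^ n`, with an
explicit `c = c(C)`. By Mahler's inequality `δ ≤ M ^ 2`, so `δ` is bounded if `M` is.

Method: the conjugates of a zero `α` of `f` and of `α ^ p` form a set of `2 n` numbers. Hadamard's
inequality bounds the product of their differences from above. The product is the product of
`disc f`, of the discriminant of the polynomial of the `p`-th powers, which is a multiple of
`disc f`, and of the square of a resultant which is divisible by `p ^ n`.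
-/

set_option autoImplicit false

open Polynomial

namespace Pool.Agent.Results.MP_dc0c68_nt.DiscriminantExplicit

/-- Distinct complex zeros of `f` have distinct `m`-th powers. -/
def Separated (f : ℤ[X]) (m : ℕ) : Prop :=
  ∀ z w : ℂ, aeval z f = 0 → aeval w f = 0 → z ^ m = w ^ m → z = w

/-- **The Mahler measure and the discriminant, explicitly.** -/
theorem result (f : ℤ[X]) (hf : Irreducible f) (M : ℝ)
    (hM : M = (f.map (Int.castRingHom ℂ)).mahlerMeasure) (hM1 : 1 < M)
    (n : ℕ) (hn : n = f.natDegree) (δ : ℝ) (hδ : δ = |(f.discr : ℝ)| ^ (1 / (n : ℝ)) / n) :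
    (M < 2 → ∀ p : ℕ, p.Prime → Separated f p →
      Real.log (p * δ / 2) / (2 * (p + 1)) ≤ Real.log M) ∧
    ((∀ m : ℕ, 1 ≤ m → Separated f m) → min 2 (Real.exp (δ / 46)) ≤ M) ∧
    ((n : ℝ) ^ n ≤ |(f.discr : ℝ)| → Separated f 7 → 108 / 100 ≤ M) := by
  have hlogδ : 0 < n → 0 < |(f.discr : ℝ)| → 0 < δ ∧
      Real.log δ = -Pool.Agent.X184.Leh.dB f := by
    intro hn0 hD
    have hn0' : (0:ℝ) < n := by exact_mod_cast hn0
    refine ⟨by rw [hδ]; positivity, ?_⟩
    rw [hδ, Real.log_div (by positivity) hn0'.ne', Real.log_rpow hD]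
    unfold Pool.Agent.X184.Leh.dB
    rw [← hn]
    ring
  have key : M < 2 → ∀ p : ℕ, p.Prime → Separated f p →
      0 < n ∧ 0 < |(f.discr : ℝ)| ∧
      Real.log p - Real.log 2 + Real.log δ ≤ 2 * (p + 1) * Real.log M := by
    intro hM2 p hp hs
    have hM1' := hM1
    have hM2' := hM2
    rw [hM] at hM1' hM2'
    obtain ⟨h1, h2, h3⟩ := Pool.Agent.X184.Leh.disc_prime f hf hM1' hM2' hp hs
    rw [← hn] at h2
    refine ⟨h2, h3, ?_⟩
    rw [(hlogδ h2 h3).2]
    have h4 : Real.log (Pool.Agent.H388SL.MM f) = Real.log M := by rw [hM]; rfl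
    rw [h4] at h1
    linarith
  have part1 : M < 2 → ∀ p : ℕ, p.Prime → Separated f p →
      Real.log (p * δ / 2) / (2 * (p + 1)) ≤ Real.log M := by
    intro hM2 p hp hs
    obtain ⟨h1, h2, h3⟩ := key hM2 p hp hs
    have hδ0 := (hlogδ h1 h2).1
    have hp0 : (0:ℝ) < p := by exact_mod_cast hp.pos
    rw [Real.log_div (by positivity) (by norm_num), Real.log_mul hp0.ne' hδ0.ne',
      div_le_iff₀ (by positivity)]
    linarith
  refine ⟨part1, ?_, ?_⟩
  · intro hs
    by_cases hM2 : 2 ≤ M
    · exact (min_le_left _ _).trans hM2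
    push Not at hM2
    refine (min_le_right _ _).trans ?_
    have hL0 : 0 < Real.log M := Real.log_pos hM1
    rw [← Real.le_log_iff_exp_le (by linarith)]
    obtain ⟨hn0, hD, -⟩ := key hM2 2 Nat.prime_two (hs 2 (by norm_num))
    obtain ⟨hδ0, -⟩ := hlogδ hn0 hD
    -- an upper bound for `δ`
    have hlogM : Real.log M ≤ 0.6931471808 :=
      (Real.log_le_log (by linarith) hM2.le).trans Real.log_two_lt_d9.le
    by_cases hbig : 4 ≤ δ
    · -- impossible
      exfalso
      have h3 : -Pool.Agent.X184.Leh.dB f ≤ 2 * Real.log (Pool.Agent.H388SL.MM f) :=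
        Pool.Agent.X184.Leh.disc_mahler f hf (by rw [hM] at hM1; exact hM1)
          (by rw [hM] at hM2; exact hM2)
      have h4 : Real.log (Pool.Agent.H388SL.MM f) = Real.log M := by rw [hM]; rfl
      rw [h4, ← (hlogδ hn0 hD).2] at h3
      have h5 : Real.log 4 ≤ Real.log δ := Real.log_le_log (by norm_num) hbig
      have h6 : Real.log M < Real.log 2 := Real.log_lt_log (by linarith) hM2
      have h7 : Real.log 4 = 2 * Real.log 2 := by
        rw [show (4:ℝ) = 2 ^ 2 by norm_num, Real.log_pow]; norm_num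
      linarith
    · push Not at hbig
      set N : ℕ := ⌈5.5 / δ⌉₊ with hN
      have hN0 : N ≠ 0 := by
        rw [hN]
        have : 0 < 5.5 / δ := by positivity
        exact (Nat.ceil_pos.mpr this).ne'
      obtain ⟨p, hp, hNp, hp2⟩ := Nat.exists_prime_lt_and_le_two_mul N hN0
      obtain ⟨-, -, h3⟩ := key hM2 p hp (hs p hp.one_le)
      have h4 : 5.5 / δ ≤ N := Nat.le_ceil _
      have h5 : (N : ℝ) < 5.5 / δ + 1 := Nat.ceil_lt_add_one (by positivity)
      have h6 : (N : ℝ) ≤ p := by exact_mod_cast hNp.le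
      have h7 : (p : ℝ) ≤ 2 * N := by exact_mod_cast hp2
      have hp0 : (0:ℝ) < p := by exact_mod_cast hp.pos
      have h8 : 5.5 ≤ p * δ := by
        have := h4.trans h6
        rwa [div_le_iff₀ hδ0] at this
      have h9 : (1:ℝ) ≤ Real.log p - Real.log 2 + Real.log δ := by
        have e : Real.log p - Real.log 2 + Real.log δ = Real.log (p * δ / 2) := by
          rw [Real.log_div (by positivity) (by norm_num), Real.log_mul hp0.ne' hδ0.ne']
          ring
        rw [e, Real.le_log_iff_exp_le (by positivity)]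
        have := Real.exp_one_lt_d9
        linarith
      have h10 : (p:ℝ) * δ ≤ 11 + 2 * δ := by
        have h11 : (p:ℝ) ≤ 2 * (5.5 / δ + 1) := by linarith
        have h12 := mul_le_mul_of_nonneg_right h11 hδ0.le
        have e : 2 * (5.5 / δ + 1) * δ = 11 + 2 * δ := by field_simp; ring
        rw [e] at h12
        exact h12
      have h13 : 1 ≤ 2 * ((p:ℝ) + 1) * Real.log M := h9.trans h3
      have h14 : δ * 1 ≤ δ * (2 * ((p:ℝ) + 1) * Real.log M) := mul_le_mul_of_nonneg_left h13 hδ0.le
      have h15 : δ * (2 * ((p:ℝ) + 1) * Real.log M) = 2 * (p * δ + δ) * Real.log M := by ring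
      have h16 : 2 * (p * δ + δ) * Real.log M ≤ 46 * Real.log M := by
        apply mul_le_mul_of_nonneg_right _ hL0.le
        linarith
      linarith
  · intro hD hs
    by_contra hcon
    push Not at hcon
    obtain ⟨h1, h2, h3⟩ := key (by linarith) 7 (by norm_num) hs
    have hn0 : (0:ℝ) < n := by exact_mod_cast h1
    have hδ1 : 1 ≤ δ := by
      rw [hδ, le_div_iff₀ hn0, one_mul]
      have h4 : ((n:ℝ) ^ n) ^ (1 / (n:ℝ)) ≤ |(f.discr : ℝ)| ^ (1 / (n:ℝ)) :=
        Real.rpow_le_rpow (by positivity) hD (by positivity)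
      rwa [← Real.rpow_natCast, ← Real.rpow_mul hn0.le, mul_one_div, div_self hn0.ne',
        Real.rpow_one] at h4
    have h5 : 0 ≤ Real.log δ := Real.log_nonneg hδ1
    have h6 : Real.log (7 / 2) ≤ Real.log (M ^ 16) := by
      rw [Real.log_div (by norm_num) (by norm_num), Real.log_pow]
      push_cast at h3 ⊢
      linarith
    have h7 : (7 / 2 : ℝ) ≤ M ^ 16 := (Real.log_le_log_iff (by norm_num) (by positivity)).mp h6
    have h8 : M ^ 16 ≤ (108 / 100) ^ 16 := pow_le_pow_left₀ (by linarith) hcon.le 16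
    norm_num at h8
    linarith

end Pool.Agent.Results.MP_dc0c68_nt.DiscriminantExplicit
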