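import Mathlib
import Pool.Agent.X184.Leh.P3

/-!
# Lehmer's problem and the sum of the squares of the first power sums

Let `f` be an irreducible integer polynomial of degree `n` with Mahler measure `M > 1`, no two
distinct zeros of which have a root of unity as quotient. Let `s_m` be the sum of the `m`-th powers
of the zeros, `S = |s_1| ^ 2 + ... + |s_k| ^ 2`, and `B = (1/n) log⁺ (n ^ n / |disc f|)`; one has
`B ≤ log n`. Then

* `S ≤ 132 n (1 + log k + B + k ^ 2 log M)` if `M < 2` and `4 k log M ≤ log (2 n)`;
* `log M ≥ min (log 2, log (2 n) / (4 k), S / (264 n k ^ 2))` if `S ≥ 264 n (1 + log k + B)`;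
* `M ≥ 2` if `4 k ≤ log (2 n)` and `S ≥ 264 n max (1 + log k + B, k ^ 2)`.

So a polynomial of degree `n` with `M < 2` has `|s_1| ^ 2 + ... + |s_k| ^ 2 ≤ C n log (2 n)` for
`k = √(log (2 n))`: the sum of the squares of the first `√(log (2 n))` power sums obeys the bound
which equidistribution gives for the square of a single one. Lehmer's inequality holds for the
polynomials that violate this, for instance if `|s_m| ≥ C √n (log (2 n)) ^ (1/4)` for a positive
proportion of the `m ≤ √(log (2 n))`. If the discriminant is large, `log (2 n)` becomes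
`1 + log k + B`.

Method: for nonnegative weights `c_m` the positive definite kernel `-log |1 - x conj y|` is applied
to the zeros of `f` (reflected and slightly contracted), their squares, ..., their `k`-th powers,
with the weight `c_m` on the `m`-th powers. The mutual energies are bounded since resultants are
integers, the self energies since `disc f` divides the discriminant of the polynomial of the `m`-th
powers; the first moment of the kernel gives the square of `∑ c_m s_m`. One takes for `c_m` the
positive and the negative parts of the power sums.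
-/

set_option autoImplicit false

open Polynomial

namespace Pool.Agent.Results.MP_dc0c68_nt.LargePowerSums

/-- The sum `|s_1| ^ 2 + ... + |s_k| ^ 2` for the power sums `s_m = ∑ z ^ m` over the complex zeros
`z` of `f` (with multiplicity). -/
noncomputable def squareSum (f : ℤ[X]) (k : ℕ) : ℝ :=
  ∑ m ∈ Finset.Icc 1 k, ‖((f.map (Int.castRingHom ℂ)).roots.map fun z => z ^ m).sum‖ ^ 2

/-- **Lehmer's problem and the sum of the squares of the first power sums.** -/
theorem result (f : ℤ[X]) (hf : Irreducible f) (M : ℝ)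
    (hM : M = (f.map (Int.castRingHom ℂ)).mahlerMeasure) (hM1 : 1 < M)
    (hnd : ∀ z w : ℂ, aeval z f = 0 → aeval w f = 0 → z ≠ w → ∀ m : ℕ, 0 < m → z ^ m ≠ w ^ m)
    (n : ℕ) (hn : n = f.natDegree) (B : ℝ)
    (hB : B = Real.posLog ((n : ℝ) ^ n / |(f.discr : ℝ)|) / n)
    (k : ℕ) (hk : 1 ≤ k) (S : ℝ) (hS : S = squareSum f k) :
    (M < 2 → 4 * k * Real.log M ≤ Real.log (2 * n) →
      S ≤ 132 * n * (1 + Real.log k + B + k ^ 2 * Real.log M)) ∧
    (264 * n * (1 + Real.log k + B) ≤ S →
      min (Real.log 2) (min (Real.log (2 * n) / (4 * k)) (S / (264 * n * k ^ 2))) ≤ Real.log M) ∧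
    (4 * k ≤ Real.log (2 * n) → 264 * n * max (1 + Real.log k + B) (k ^ 2) ≤ S → 2 ≤ M) := by
  have hk1 : (1:ℝ) ≤ k := by exact_mod_cast hk
  have hk0 : (0:ℝ) < k := by linarith
  have h1 : M < 2 → 4 * k * Real.log M ≤ Real.log (2 * n) →
      S ≤ 132 * n * (1 + Real.log k + B + k ^ 2 * Real.log M) ∧ 0 < n := by
    intro hM2 hkM
    subst hM hn
    have h := Pool.Agent.X184.Leh.irr_power f hf hM1 hM2 hnd hk hkM
    rw [hS, hB]
    exact h
  have h2 : 264 * n * (1 + Real.log k + B) ≤ S →
      min (Real.log 2) (min (Real.log (2 * n) / (4 * k)) (S / (264 * n * k ^ 2))) ≤ Real.log M := by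
    intro hS1
    by_contra hcon
    push Not at hcon
    obtain ⟨h3, h4⟩ := lt_min_iff.mp hcon
    obtain ⟨h4, h5⟩ := lt_min_iff.mp h4
    have hM2 : M < 2 := (Real.log_lt_log_iff (by linarith) two_pos).mp h3
    rw [lt_div_iff₀ (by positivity)] at h4
    obtain ⟨h6, hn0⟩ := h1 hM2 (by linarith)
    have hn0' : (0:ℝ) < n := by exact_mod_cast hn0
    rw [lt_div_iff₀ (by positivity)] at h5
    nlinarith
  refine ⟨fun ha hb => (h1 ha hb).1, h2, ?_⟩
  intro hk4 hS2
  have hn0 : 0 < n := by
    rcases Nat.eq_zero_or_pos n with h | h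
    · rw [h, Nat.cast_zero, mul_zero, Real.log_zero] at hk4
      linarith
    · exact h
  have hn0' : (0:ℝ) < n := by exact_mod_cast hn0
  have h3 : 264 * n * (1 + Real.log k + B) ≤ S :=
    (mul_le_mul_of_nonneg_left (le_max_left _ _) (by positivity)).trans hS2
  have h4 : 264 * n * (k:ℝ) ^ 2 ≤ S :=
    (mul_le_mul_of_nonneg_left (le_max_right _ _) (by positivity)).trans hS2
  have h5 := h2 h3
  have hlog2 : Real.log 2 ≤ 1 := by
    have := Real.log_two_lt_d9
    linarith
  have h6 : 1 ≤ Real.log (2 * n) / (4 * k) := by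
    rw [le_div_iff₀ (by positivity)]; linarith
  have h7 : 1 ≤ S / (264 * n * (k:ℝ) ^ 2) := by
    rw [le_div_iff₀ (by positivity)]; linarith
  have h8 : Real.log 2 ≤ Real.log M :=
    (le_min le_rfl (le_min (hlog2.trans h6) (hlog2.trans h7))).trans h5
  exact (Real.log_le_log_iff two_pos (by linarith)).mp h8

end Pool.Agent.Results.MP_dc0c68_nt.LargePowerSums
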