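import Mathlib
import Pool.Agent.X184.Leh.S3

/-!
# The Mahler measure of a divisor of a polynomial with few terms

Let `f` be an irreducible integer polynomial of degree `n` with Mahler measure `M > 1`, no quotient
of two distinct zeros of which is a root of unity, and let `B = (1/n) log⁺ (n ^ n / |disc f|)`; one
has `0 ≤ B ≤ log n`.

(1) Let `F ≠ 0` be a complex polynomial of degree `D` with `k` nonzero coefficients which is
divisible by `f`. If `n ≥ 64 k (1 + B + log k)` then `M ≥ exp (n / (8 k ^ 2 D))`.

(2) In particular, if `f` itself has `k` nonzero coefficients and `n ≥ 64 k (1 + B + log k)`, then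
`M ≥ exp (1 / (8 k ^ 2))`.

No logarithm of the number of terms or of the degree occurs in the bounds. As `B ≤ log n`, (2) holds
for the number of terms up to `n / (64 (1 + 2 log n))`.

Method: the relation between the powers of a zero of `f` given by `F` makes a Gram matrix of size
`k` singular, so the sum of the squares of the power sums whose exponents are differences of two
exponents of `F`, with multiplicities, is at least of order `n ^ 2`. On the other hand the positive
definite kernel `-log |1 - t x conj y|`, applied to the zeros of `f` and their powers with weights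
proportional to these multiplicities and to the power sums themselves, bounds this sum by
`n (2 k (1 + B + log k) + k ^ 2 D log M)`.
-/

set_option autoImplicit false

open Polynomial

namespace Pool.Agent.Results.MP_dc0c68_nt.SparseMultiples

/-- **Divisors of polynomials with few terms.** -/
theorem result (f : ℤ[X]) (hf : Irreducible f) (M : ℝ)
    (hM : M = (f.map (Int.castRingHom ℂ)).mahlerMeasure) (hM1 : 1 < M)
    (hnd : ∀ z w : ℂ, aeval z f = 0 → aeval w f = 0 → z ≠ w → ∀ m : ℕ, 0 < m → z ^ m ≠ w ^ m)
    (n : ℕ) (hn : n = f.natDegree) (B : ℝ)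
    (hB : B = Real.posLog ((n : ℝ) ^ n / |(f.discr : ℝ)|) / n) :
    (∀ F : ℂ[X], F ≠ 0 → f.map (Int.castRingHom ℂ) ∣ F →
      ∀ k D : ℕ, k = F.support.card → D = F.natDegree → 64 * k * (1 + B + Real.log k) ≤ n →
        Real.exp (n / (8 * k ^ 2 * D)) ≤ M) ∧
    (∀ k : ℕ, k = f.support.card → 64 * k * (1 + B + Real.log k) ≤ n →
      Real.exp (1 / (8 * k ^ 2)) ≤ M) := by
  have part1 : ∀ F : ℂ[X], F ≠ 0 → f.map (Int.castRingHom ℂ) ∣ F →
      ∀ k D : ℕ, k = F.support.card → D = F.natDegree → 64 * k * (1 + B + Real.log k) ≤ n →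
        Real.exp (n / (8 * k ^ 2 * D)) ≤ M := by
    intro F hF hdvd k D hk hD h
    have hk1 : 1 ≤ k := by
      rw [hk]
      exact Finset.card_pos.mpr (Polynomial.support_nonempty.mpr hF)
    have hk1' : (1:ℝ) ≤ k := by exact_mod_cast hk1
    have hB0 : 0 ≤ B := by
      rw [hB]
      exact div_nonneg Real.posLog_nonneg (Nat.cast_nonneg _)
    have hlk : 0 ≤ Real.log k := Real.log_nonneg hk1'
    have hn0 : (0:ℝ) < n := by
      have : 0 < 64 * (k:ℝ) * (1 + B + Real.log k) := by positivity
      linarith
    have hnD : n ≤ D := by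
      have h1 := Polynomial.natDegree_le_of_dvd hdvd hF
      rwa [natDegree_map_eq_of_injective (RingHom.injective_int _), ← hn, ← hD] at h1
    have hnD' : (n:ℝ) ≤ D := by exact_mod_cast hnD
    have hD0 : (0:ℝ) < D := by linarith
    by_cases hM2 : 2 ≤ M
    · have h1 : (n:ℝ) / (8 * k ^ 2 * D) ≤ 1 / 8 := by
        rw [div_le_div_iff₀ (by positivity) (by norm_num)]
        have h2 : (1:ℝ) ≤ (k:ℝ) ^ 2 := one_le_pow₀ hk1'
        nlinarith
      have h2 : (1:ℝ) / 8 ≤ Real.log 2 := by
        have := Real.log_two_gt_d9
        linarith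
      calc Real.exp (n / (8 * k ^ 2 * D)) ≤ Real.exp (Real.log 2) :=
            Real.exp_le_exp.mpr (h1.trans h2)
        _ = 2 := Real.exp_log two_pos
        _ ≤ M := hM2
    push Not at hM2
    rw [← Real.le_log_iff_exp_le (by linarith), div_le_iff₀ (by positivity)]
    have hmain := Pool.Agent.X184.Leh.sparse_main f hf (by rw [hM] at hM1; exact hM1)
      (by rw [hM] at hM2; exact hM2) (by
        intro m hm z w hz hw hzw
        by_contra hne
        exact hnd z w hz hw hne m hm hzw) F hF hdvd (by
        rw [← hn, ← hk]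
        have e : Pool.Agent.X184.Leh.dfct f = B := by
          rw [hB, hn]; rfl
        rw [e]
        exact h)
    have e : Real.log (Pool.Agent.H388SL.MM f) = Real.log M := by rw [hM]; rfl
    rw [← hn, ← hk, ← hD, e] at hmain
    linarith
  refine ⟨part1, ?_⟩
  intro k hk h
  have hf0 : f ≠ 0 := hf.ne_zero
  have hinj : Function.Injective (Int.castRingHom ℂ) := RingHom.injective_int _
  have hfm0 : f.map (Int.castRingHom ℂ) ≠ 0 := (Polynomial.map_ne_zero_iff hinj).mpr hf0
  have hsup : (f.map (Int.castRingHom ℂ)).support.card = f.support.card := by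
    rw [Polynomial.support_map_of_injective _ hinj]
  have h1 := part1 (f.map (Int.castRingHom ℂ)) hfm0 dvd_rfl k n (by rw [hsup]; exact hk)
    (by rw [natDegree_map_eq_of_injective hinj]; exact hn) h
  have hk1 : 1 ≤ k := by
    rw [hk]
    exact Finset.card_pos.mpr (Polynomial.support_nonempty.mpr hf0)
  have hk1' : (1:ℝ) ≤ k := by exact_mod_cast hk1
  have hB0 : 0 ≤ B := by
    rw [hB]
    exact div_nonneg Real.posLog_nonneg (Nat.cast_nonneg _)
  have hlk : 0 ≤ Real.log k := Real.log_nonneg hk1'
  have hn0 : (0:ℝ) < n := by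
    have : 0 < 64 * (k:ℝ) * (1 + B + Real.log k) := by positivity
    linarith
  have e : (n:ℝ) / (8 * k ^ 2 * n) = 1 / (8 * k ^ 2) := by
    field_simp
  rw [e] at h1
  exact h1

end Pool.Agent.Results.MP_dc0c68_nt.SparseMultiples
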